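import Pool.Agent.Y485.UGS.Stm
import Pool.Agent.W715.VC.TrPow

/-! Job UGS-KRON: integral matrices with small spectral radius have roots of unity as eigenvalues. -/

set_option autoImplicit false

namespace Pool.Agent.Y130.UGS

open Polynomial Pool.Agent.Y485.UGS

theorem exp_sum (R : Multiset ℂ) (g : ℂ → ℂ) (F : ℂ[X]) (m : ℕ) (hF : F.natDegree < m) :
    (R.map fun z => F.eval (g z)).sum =
      ∑ i ∈ Finset.range m, F.coeff i * (R.map fun z => g z ^ i).sum := by
  induction R using Multiset.induction_on with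
  | empty => simp
  | cons a R ih =>
    rw [Multiset.map_cons, Multiset.sum_cons, ih, eval_eq_sum_range' hF, ← Finset.sum_add_distrib]
    refine Finset.sum_congr rfl fun i _ => ?_
    rw [Multiset.map_cons, Multiset.sum_cons, mul_add]

theorem sum_eval (R : Multiset ℂ) (p m : ℕ)
    (h : ∀ k < m, (R.map fun z => (z ^ p) ^ k).sum = (R.map fun z => z ^ k).sum) (F : ℂ[X])
    (hF : F.natDegree < m) :
    (R.map fun z => F.eval (z ^ p)).sum = (R.map fun z => F.eval z).sum := by
  rw [exp_sum R (fun z => z ^ p) F m hF, exp_sum R (fun z => z) F m hF]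
  exact Finset.sum_congr rfl fun i hi => by rw [h i (Finset.mem_range.1 hi)]

theorem sum_ite (R : Multiset ℂ) (v c : ℂ) :
    (R.map fun z => if z = v then c else 0).sum = R.count v • c := by
  induction R using Multiset.induction_on with
  | empty => simp
  | cons a R ih =>
    rw [Multiset.map_cons, Multiset.sum_cons, ih, Multiset.count_cons]
    by_cases h : a = v
    · rw [if_pos h, if_pos h.symm, add_smul, one_smul, add_comm]
    · rw [if_neg h, if_neg (Ne.symm h), zero_add, add_zero]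

/-- the polynomial which vanishes at all elements but one -/
noncomputable def LF (V : Finset ℂ) (v : ℂ) : ℂ[X] := ∏ u ∈ V.erase v, (X - C u)

theorem LF_deg (V : Finset ℂ) (v : ℂ) : (LF V v).natDegree ≤ V.card := by
  unfold LF
  rw [natDegree_prod_of_monic _ _ fun u _ => monic_X_sub_C u]
  simp only [natDegree_X_sub_C, Finset.sum_const, smul_eq_mul, mul_one]
  exact Finset.card_le_card (Finset.erase_subset _ _)

theorem LF_ne (V : Finset ℂ) (v : ℂ) : (LF V v).eval v ≠ 0 := by
  unfold LF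
  rw [eval_prod, Finset.prod_ne_zero_iff]
  intro u hu
  rw [eval_sub, eval_X, eval_C, sub_ne_zero]
  exact (Finset.ne_of_mem_erase hu).symm

theorem LF_zero {V : Finset ℂ} {v z : ℂ} (hz : z ∈ V) (hne : z ≠ v) : (LF V v).eval z = 0 := by
  unfold LF
  rw [eval_prod]
  refine Finset.prod_eq_zero (Finset.mem_erase.2 ⟨hne, hz⟩) ?_
  rw [eval_sub, eval_X, eval_C, sub_self]

theorem sum_LF {V : Finset ℂ} {v : ℂ} (S : Multiset ℂ) (hS : ∀ z ∈ S, z ∈ V) :
    (S.map fun z => (LF V v).eval z).sum = S.count v • (LF V v).eval v := by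
  rw [← sum_ite]
  congr 1
  refine Multiset.map_congr rfl fun z hz => ?_
  by_cases h : z = v
  · rw [if_pos h, h]
  · rw [if_neg h, LF_zero (hS z hz) h]

theorem count_eq (R : Multiset ℂ) (p : ℕ)
    (h : ∀ k < 2 * R.card + 1, (R.map fun z => (z ^ p) ^ k).sum = (R.map fun z => z ^ k).sum)
    (v : ℂ) : (R.map fun z => z ^ p).count v = R.count v := by
  classical
  let V : Finset ℂ := R.toFinset ∪ (R.map fun z => z ^ p).toFinset
  have hV : V.card ≤ 2 * R.card := by
    refine (Finset.card_union_le _ _).trans ?_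
    have h1 := Multiset.toFinset_card_le R
    have h2 := Multiset.toFinset_card_le (R.map fun z => z ^ p)
    rw [Multiset.card_map] at h2
    omega
  have h1 := sum_eval R p _ h (LF V v) (lt_of_le_of_lt (LF_deg V v) (by omega))
  rw [sum_LF R fun z hz => Finset.mem_union_left _ (Multiset.mem_toFinset.2 hz)] at h1
  have h2 : (R.map fun z => (LF V v).eval (z ^ p)) =
      ((R.map fun z => z ^ p).map fun z => (LF V v).eval z) := by
    rw [Multiset.map_map]
    rfl
  rw [h2, sum_LF _ fun z hz => Finset.mem_union_right _ (Multiset.mem_toFinset.2 hz)] at h1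
  rw [nsmul_eq_mul, nsmul_eq_mul] at h1
  exact_mod_cast mul_right_cancel₀ (LF_ne V v) h1

/-- power sums which do not change when the numbers are raised to the power `p` -/
theorem roots_of_unity (R : Multiset ℂ) (p : ℕ) (hp : 2 ≤ p)
    (h : ∀ k < 2 * R.card + 1, (R.map fun z => (z ^ p) ^ k).sum = (R.map fun z => z ^ k).sum)
    {z : ℂ} (hz : z ∈ R) : z = 0 ∨ ∃ q : ℕ, 0 < q ∧ z ^ q = 1 := by
  classical
  have hR : R.map (fun z => z ^ p) = R := Multiset.ext.2 fun v => count_eq R p h v
  have hmem : ∀ x ∈ R, x ^ p ∈ R := by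
    intro x hx
    rw [← hR]
    exact Multiset.mem_map_of_mem _ hx
  let f : {x // x ∈ R} → {x // x ∈ R} := fun x => ⟨x.1 ^ p, hmem x.1 x.2⟩
  have hsurj : Function.Surjective f := by
    rintro ⟨y, hy⟩
    have hy' := hy
    rw [← hR, Multiset.mem_map] at hy'
    obtain ⟨x, hx, hxy⟩ := hy'
    exact ⟨⟨x, hx⟩, Subtype.ext hxy⟩
  have hfin : Finite {x // x ∈ R} := by
    have : Finite {x // x ∈ R.toFinset} := inferInstance
    exact Finite.of_injective (fun x : {x // x ∈ R} => (⟨x.1, Multiset.mem_toFinset.2 x.2⟩ :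
      {x // x ∈ R.toFinset})) fun a b hab => Subtype.ext (by
        have h5 := congrArg (fun t : {x // x ∈ R.toFinset} => t.1) hab
        exact h5)
  have hinj : Function.Injective f := Finite.injective_iff_surjective.2 hsurj
  let e : Equiv.Perm {x // x ∈ R} := Equiv.ofBijective f ⟨hinj, hsurj⟩
  have he : ∀ (n : ℕ) (x : {x // x ∈ R}), ((e ^ n) x).1 = x.1 ^ (p ^ n) := by
    intro n
    induction n with
    | zero => intro x; simp
    | succ n ih =>
      intro x
      rw [pow_succ', Equiv.Perm.mul_apply]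
      change ((e ^ n) x).1 ^ p = _
      rw [ih, ← pow_mul, ← pow_succ]
  have hord : 0 < orderOf e := orderOf_pos e
  have h1 := he (orderOf e) ⟨z, hz⟩
  rw [pow_orderOf_eq_one, Equiv.Perm.one_apply] at h1
  have h2 : 1 < p ^ orderOf e := Nat.one_lt_pow hord.ne' (by omega)
  by_cases h0 : z = 0
  · exact Or.inl h0
  · refine Or.inr ⟨p ^ orderOf e - 1, by omega, ?_⟩
    have h3 : z * z ^ (p ^ orderOf e - 1) = z * 1 := by
      rw [← pow_succ', mul_one]
      have h4 : p ^ orderOf e - 1 + 1 = p ^ orderOf e := by omega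
      rw [h4]
      exact h1.symm
    exact mul_left_cancel₀ h0 h3

theorem kron : S_KRON := by
  intro d T hT z hz
  have hd : 0 < d := by
    rcases Nat.eq_zero_or_pos d with h0 | h0
    · subst h0
      exfalso
      have h1 : T.charpoly = 1 := by
        simp [Matrix.charpoly]
      rw [h1, Polynomial.map_one, IsRoot.def, eval_one] at hz
      exact one_ne_zero hz
    · exact h0
  obtain ⟨p, hp, hp1, hp2⟩ := Nat.exists_prime_lt_and_le_two_mul (4 * d) (by omega)
  have : Fact p.Prime := ⟨hp⟩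
  set A : Matrix (Fin d) (Fin d) ℂ := T.map (Int.castRingHom ℂ) with hA
  have hcp : A.charpoly = T.charpoly.map (Int.castRingHom ℂ) := Matrix.charpoly_map T _
  rw [← hcp] at hT hz
  set R := A.charpoly.roots with hR
  have hcard : R.card = d := by
    rw [hR, ← (IsAlgClosed.splits A.charpoly).natDegree_eq_card_roots,
      A.charpoly_natDegree_eq_dim, Fintype.card_fin]
  have hne : A.charpoly ≠ 0 := (Matrix.charpoly_monic A).ne_zero
  have hmemR : ∀ x, x ∈ R ↔ A.charpoly.IsRoot x := fun x => mem_roots hne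
  -- traces
  have htr : ∀ k : ℕ, k ≠ 0 → ((T ^ k).trace : ℂ) = (R.map fun z => z ^ k).sum := by
    intro k hk
    rw [← Pool.Agent.W715.VC.trace_pow A hk, hA]
    have h1 : (T.map (Int.castRingHom ℂ)) ^ k = (T ^ k).map (Int.castRingHom ℂ) :=
      (map_pow (Int.castRingHom ℂ).mapMatrix T k).symm
    rw [h1]
    simp [Matrix.trace]
  have hcong : ∀ k : ℕ, (p : ℤ) ∣ (T ^ (p * k)).trace - (T ^ k).trace := by
    intro k
    rw [← ZMod.intCast_zmod_eq_zero_iff_dvd, Int.cast_sub, sub_eq_zero]
    have h1 : ∀ S : Matrix (Fin d) (Fin d) ℤ, ((S.trace : ℤ) : ZMod p) =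
        (S.map (Int.castRingHom (ZMod p))).trace := by
      intro S
      simp [Matrix.trace]
    rw [h1, h1, mul_comm p k, pow_mul]
    have h2 : ((T ^ k) ^ p).map (Int.castRingHom (ZMod p)) =
        ((T ^ k).map (Int.castRingHom (ZMod p))) ^ p :=
      map_pow (Int.castRingHom (ZMod p)).mapMatrix (T ^ k) p
    rw [h2, ZMod.trace_pow_card, ZMod.pow_card]
  have hbd : ∀ x ∈ R, ∀ j : ℕ, j ≤ 16 * d ^ 2 → ‖x ^ j‖ ≤ 2 := by
    intro x hx j hj
    rw [norm_pow]
    rcases le_total ‖x‖ 1 with h1 | h1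
    · exact (pow_le_one₀ (norm_nonneg x) h1).trans (by norm_num)
    · exact (pow_le_pow_right₀ h1 hj).trans (hT x ((hmemR x).1 hx)).le
  have hsum : ∀ j : ℕ, j ≤ 16 * d ^ 2 → ‖(R.map fun z => z ^ j).sum‖ ≤ 2 * d := by
    intro j hj
    have h1 : ∀ S : Multiset ℂ, (∀ x ∈ S, x ∈ R) →
        ‖(S.map fun z => z ^ j).sum‖ ≤ 2 * (S.card : ℝ) := by
      intro S
      induction S using Multiset.induction_on with
      | empty => intro _; simp
      | cons a S ih =>
        intro hS
        rw [Multiset.map_cons, Multiset.sum_cons, Multiset.card_cons]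
        have h2 := ih fun x hx => hS x (Multiset.mem_cons_of_mem hx)
        have h3 := hbd a (hS a (Multiset.mem_cons_self a S)) j hj
        calc ‖a ^ j + (S.map fun z => z ^ j).sum‖ ≤ ‖a ^ j‖ + ‖(S.map fun z => z ^ j).sum‖ :=
              norm_add_le _ _
          _ ≤ 2 + 2 * (S.card : ℝ) := add_le_add h3 h2
          _ = 2 * ((S.card + 1 : ℕ) : ℝ) := by push_cast; ring
    have h2 := h1 R fun x hx => hx
    rwa [hcard] at h2
  refine roots_of_unity R p hp.two_le (fun k hk => ?_) ((hmemR z).2 hz)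
  rw [hcard] at hk
  rcases Nat.eq_zero_or_pos k with h0 | h0
  · subst h0
    simp
  have hpk : p * k ≤ 16 * d ^ 2 := by
    have h1 : k ≤ 2 * d := by omega
    calc p * k ≤ (2 * (4 * d)) * (2 * d) := Nat.mul_le_mul hp2 h1
      _ = 16 * d ^ 2 := by ring
  have hk2 : k ≤ 16 * d ^ 2 := le_trans (Nat.le_mul_of_pos_left k hp.pos) hpk
  have h1 : (R.map fun z => (z ^ p) ^ k) = R.map fun z => z ^ (p * k) := by
    refine Multiset.map_congr rfl fun x _ => (pow_mul x p k).symm
  rw [h1, ← htr (p * k) (Nat.mul_pos hp.pos h0).ne', ← htr k h0.ne']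
  have h2 : (T ^ (p * k)).trace - (T ^ k).trace = 0 := by
    refine Int.eq_zero_of_abs_lt_dvd (hcong k) ?_
    have h3 : ‖(((T ^ (p * k)).trace : ℤ) : ℂ) - (((T ^ k).trace : ℤ) : ℂ)‖ ≤ 4 * d := by
      refine (norm_sub_le _ _).trans ?_
      rw [htr (p * k) (Nat.mul_pos hp.pos h0).ne', htr k h0.ne']
      have h4 := hsum _ hpk
      have h5 := hsum _ hk2
      linarith
    rw [← Int.cast_sub, Complex.norm_intCast] at h3
    have h4 : ((|(T ^ (p * k)).trace - (T ^ k).trace| : ℤ) : ℝ) ≤ ((4 * d : ℕ) : ℝ) := by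
      rw [Int.cast_abs]
      push_cast
      exact_mod_cast h3
    have h5 : |(T ^ (p * k)).trace - (T ^ k).trace| ≤ (4 * d : ℕ) := by exact_mod_cast h4
    have h6 : ((4 * d : ℕ) : ℤ) < (p : ℤ) := by exact_mod_cast hp1
    omega
  have h3 : (T ^ (p * k)).trace = (T ^ k).trace := sub_eq_zero.1 h2
  rw [h3]

end Pool.Agent.Y130.UGS
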